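import Pool.Agent.H83.Valdivia

set_option autoImplicit false

namespace Pool.Agent.Results.MP_42f98c_gt.NoInvariant

universe u

/-- `A` is a Sigma-subset of `K`: the preimage of the Sigma-product under an embedding of `K`
into a power of the real line (index set in universe `u`). -/
def IsSigmaSubset {K : Type} [TopologicalSpace K] (A : Set K) : Prop :=
  ∃ (Γ : Type u) (e : K → (Γ → ℝ)), Topology.IsEmbedding e ∧
    A = e ⁻¹' {x : Γ → ℝ | {γ : Γ | x γ ≠ 0}.Countable}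

theorem result : ∃ (K : Type) (_ : TopologicalSpace K) (G : Subgroup (K ≃ₜ K)),
    CompactSpace K ∧ T2Space K ∧ (∃ A : Set K, Dense A ∧ IsSigmaSubset.{0} A) ∧
    Finite G ∧ (∀ g ∈ G, ∀ h ∈ G, g * h = h * g) ∧
    ¬ ∃ A : Set K, Dense A ∧ IsSigmaSubset.{u} A ∧ ∀ g ∈ G, g '' A ⊆ A := by
  open Pool.Agent.H83.Valdivia in
  let h : (Idx → Bool) ≃ₜ (Idx → Bool) :=
    { toFun := inv, invFun := inv, left_inv := inv_inv, right_inv := inv_inv,
      continuous_toFun := inv_cont, continuous_invFun := inv_cont }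
  have hh : h ^ 2 = 1 := by
    rw [pow_two]; ext1 x; exact Pool.Agent.H83.Valdivia.inv_inv x
  refine ⟨Pool.Agent.H83.Valdivia.Idx → Bool, inferInstance, Subgroup.zpowers h, inferInstance,
    inferInstance, Pool.Agent.H83.Valdivia.cube_valdivia _, ?_, ?_, ?_⟩
  · exact (isOfFinOrder_iff_pow_eq_one.2 ⟨2, by norm_num, hh⟩).finite_zpowers
  · rintro _ ⟨a, rfl⟩ _ ⟨b, rfl⟩
    exact zpow_mul_comm h a b
  · rintro ⟨A, hA, ⟨Γ, φ, hφ, rfl⟩, hinv⟩
    exact Pool.Agent.H83.Valdivia.no_invariant φ hφ hA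
      (fun x hx => hinv h (Subgroup.mem_zpowers h) ⟨x, hx, rfl⟩)

end Pool.Agent.Results.MP_42f98c_gt.NoInvariant
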